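import Pool.Agent.H50.LV.Targets

/-!
# Row PAR of the board lve_modules: partition into intervals of constant sign
-/

set_option autoImplicit false

open Finset MeasureTheory
open scoped Polynomial

namespace Pool.Agent.H51.LVE

open Pool.Agent.H24.CL Pool.Agent.H24.LV Pool.Agent.H50.LV

theorem sign (P : ℝ[X]) (F : Finset ℝ) (hF : ∀ w, -1 < w → w < 1 → w ∈ P.roots → w ∈ F) (u v : ℝ)
    (hu : -1 ≤ u) (hv : v ≤ 1) (hgap : ∀ w ∈ F, ¬ (u < w ∧ w < v)) :
    (∀ y ∈ Set.Icc u v, 0 ≤ P.eval y) ∨ ∀ y ∈ Set.Icc u v, P.eval y ≤ 0 := by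
  by_contra hcon
  rw [not_or] at hcon
  obtain ⟨h1, h2⟩ := hcon
  push Not at h1 h2
  obtain ⟨y, hy, hyP⟩ := h1
  obtain ⟨z, hz, hzP⟩ := h2
  have hP : P ≠ 0 := by
    rintro rfl
    simp at hyP
  have h0 : (0 : ℝ) ∈ Set.uIcc (P.eval y) (P.eval z) := by
    rw [Set.mem_uIcc]
    left
    exact ⟨hyP.le, hzP.le⟩
  obtain ⟨w, hw, hw0⟩ := intermediate_value_uIcc (P.continuous.continuousOn) h0
  have hwy : w ≠ y := by
    rintro rfl
    exact absurd hw0 hyP.ne
  have hwz : w ≠ z := by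
    rintro rfl
    exact absurd hw0 hzP.ne'
  have hwu : u < w ∧ w < v := by
    rcases Set.mem_uIcc.1 hw with ⟨h3, h4⟩ | ⟨h3, h4⟩
    · exact ⟨lt_of_le_of_lt hy.1 (lt_of_le_of_ne h3 hwy.symm), lt_of_lt_of_le (lt_of_le_of_ne h4 hwz) hz.2⟩
    · exact ⟨lt_of_le_of_lt hz.1 (lt_of_le_of_ne h3 hwz.symm), lt_of_lt_of_le (lt_of_le_of_ne h4 hwy) hy.2⟩
  refine hgap w (hF w (by linarith [hwu.1]) (by linarith [hwu.2]) ?_) hwu
  rw [Polynomial.mem_roots hP]
  exact hw0

/-- points which separate a finite set -/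
theorem seps (F : Finset ℝ) (hF : ∀ w ∈ F, -1 < w ∧ w < 1) (m : ℕ) (hm : F.card ≤ m) :
    ∃ x : ℕ → ℝ, x 0 = -1 ∧ x (m + 1) = 1 ∧ Monotone x ∧ (∀ i, -1 ≤ x i ∧ x i ≤ 1) ∧
      ∀ i, ∀ w ∈ F, ¬ (x i < w ∧ w < x (i + 1)) := by
  set n := F.card with hn
  set o : Fin n ↪o ℝ := F.orderEmbOfFin rfl with ho
  have hoF : ∀ j, o j ∈ F := fun j => F.orderEmbOfFin_mem rfl j
  have hoS : ∀ w ∈ F, ∃ j, o j = w := by
    intro w hw
    have h1 := F.range_orderEmbOfFin rfl
    have h2 : w ∈ Set.range (F.orderEmbOfFin rfl) := by rw [h1]; exact hw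
    exact h2
  set x : ℕ → ℝ := fun i => if i = 0 then -1 else if h : i - 1 < n then o ⟨i - 1, h⟩ else 1 with hx
  have hx0 : x 0 = -1 := by simp [hx]
  have hxs : ∀ i (h : i < n), x (i + 1) = o ⟨i, h⟩ := by
    intro i h
    simp only [hx]
    rw [if_neg (by omega), dif_pos (by omega)]
    congr 1
  have hxl : ∀ i, n ≤ i → x (i + 1) = 1 := by
    intro i h
    simp only [hx]
    rw [if_neg (by omega), dif_neg (by omega)]
  have hb : ∀ i, -1 ≤ x i ∧ x i ≤ 1 := by
    intro i
    rcases i with _ | i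
    · rw [hx0]; norm_num
    · by_cases h : i < n
      · rw [hxs i h]
        exact ⟨(hF _ (hoF _)).1.le, (hF _ (hoF _)).2.le⟩
      · rw [hxl i (by omega)]; norm_num
  refine ⟨x, hx0, hxl m hm, ?_, hb, ?_⟩
  · apply monotone_nat_of_le_succ
    intro i
    rcases i with _ | i
    · rw [hx0]
      exact (hb _).1
    · by_cases h : i + 1 < n
      · rw [hxs i (by omega), hxs (i + 1) h]
        apply o.monotone
        exact Fin.mk_le_mk.2 (Nat.le_succ i)
      · rw [hxl (i + 1) (by omega)]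
        exact (hb _).2
  · intro i w hw hcon
    obtain ⟨j, rfl⟩ := hoS w hw
    obtain ⟨h1, h2⟩ := hcon
    have hi1 : j.val < i → False := by
      intro hji
      rcases i with _ | i
      · omega
      · by_cases h : i < n
        · rw [hxs i h] at h1
          have h3 := o.lt_iff_lt.1 h1
          rw [Fin.lt_def] at h3
          simp only at h3
          omega
        · rw [hxl i (by omega)] at h1
          have := (hF _ (hoF j)).2
          linarith
    have hi2 : i ≤ j.val → False := by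
      intro hij
      have h : i < n := lt_of_le_of_lt hij j.isLt
      rw [hxs i h] at h2
      have h3 := o.lt_iff_lt.1 h2
      rw [Fin.lt_def] at h3
      simp only at h3
      omega
    rcases Nat.lt_or_ge j.val i with h | h
    · exact hi1 h
    · exact hi2 h

theorem pf_PAR : T_PAR := by
  classical
  intro d P Q hP hQ
  set F : Finset ℝ := (P.roots.toFinset ∪ Q.roots.toFinset).filter fun w => -1 < w ∧ w < 1 with hF
  have hcard : F.card ≤ 2 * d := by
    refine (Finset.card_filter_le _ _).trans ((Finset.card_union_le _ _).trans ?_)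
    have h1 := (Multiset.toFinset_card_le P.roots).trans ((Polynomial.card_roots' P).trans hP)
    have h2 := (Multiset.toFinset_card_le Q.roots).trans ((Polynomial.card_roots' Q).trans hQ)
    omega
  obtain ⟨x, hx0, hx1, hm, hb, hg⟩ := seps F (fun w hw => (mem_filter.1 hw).2) (2 * d) hcard
  refine ⟨x, hx0, hx1, hm, fun i _ => ⟨?_, ?_⟩⟩
  · apply sign P F _ _ _ (hb i).1 (hb (i + 1)).2 (hg i)
    intro w h1 h2 h3
    rw [hF, mem_filter, mem_union, Multiset.mem_toFinset]
    exact ⟨Or.inl h3, h1, h2⟩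
  · apply sign Q F _ _ _ (hb i).1 (hb (i + 1)).2 (hg i)
    intro w h1 h2 h3
    rw [hF, mem_filter, mem_union, Multiset.mem_toFinset, Multiset.mem_toFinset]
    exact ⟨Or.inr h3, h1, h2⟩

end Pool.Agent.H51.LVE
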