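import Pool.Agent.H50.LV.Targets

/-!
# Row FUN of the board lve_modules: the functional for functions with a majorant
-/

set_option autoImplicit false

open Finset MeasureTheory
open scoped Polynomial

namespace Pool.Agent.H51.LVE

open Pool.Agent.H24.CL Pool.Agent.H24.LV Pool.Agent.H50.LV

theorem gI_nonneg {k : ℕ} (N : ℝ) (η : Fin k → ℝ) (τ s : ℝ) : 0 ≤ gI N η τ s := by
  rw [gI]
  positivity

/-- one class -/
theorem cls {k : ℕ} (q N : ℕ) (η : Fin k → ℝ) (τ ξ : ℝ) (h : ℝ → ℝ) (T : ℕ) (x : ℤ) (B : ℝ)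
    (hq : 1 ≤ q) (hh : ∀ s : ℝ, gI N η τ s ≤ h (N * s)) (hT : T ∣ q)
    (hB : ∀ s : Finset ℤ, ∑ j ∈ s, h (N * (ξ + (x : ℝ) / q + (j : ℝ) / (T : ℝ))) ≤ B) :
    ∑ l ∈ (range q).filter (fun l : ℕ => ((q / T : ℕ) : ℤ) ∣ (l : ℤ) - x),
      ∑' n : ℤ, gI N η τ (ξ + (l : ℝ) / q - n) ≤ B := by
  classical
  set L := (range q).filter (fun l : ℕ => ((q / T : ℕ) : ℤ) ∣ (l : ℤ) - x) with hL
  set D := q / T with hD
  have hDT : D * T = q := Nat.div_mul_cancel hT
  have hT1 : 1 ≤ T := Nat.pos_of_dvd_of_pos hT hq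
  have hD1 : 1 ≤ D := by
    rcases Nat.eq_zero_or_pos D with h0 | h0
    · rw [h0, zero_mul] at hDT
      omega
    · exact h0
  have hqR : (q : ℝ) = D * T := by exact_mod_cast hDT.symm
  have hTR : (T : ℝ) ≠ 0 := by exact_mod_cast (by omega : T ≠ 0)
  have hDR : (D : ℝ) ≠ 0 := by exact_mod_cast (by omega : D ≠ 0)
  set J : ℕ × ℤ → ℤ := fun p => ((p.1 : ℤ) - x) / D - p.2 * T with hJ
  have hJD : ∀ l ∈ L, ((l : ℤ) - x) / D * D = (l : ℤ) - x := by
    intro l hl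
    exact Int.ediv_mul_cancel (mem_filter.1 hl).2
  have hterm : ∀ l ∈ L, ∀ n : ℤ, gI N η τ (ξ + (l : ℝ) / q - n) ≤
      h (N * (ξ + (x : ℝ) / q + ((J (l, n) : ℤ) : ℝ) / (T : ℝ))) := by
    intro l hl n
    refine (hh _).trans (le_of_eq ?_)
    congr 2
    have h1 : (((((l : ℤ) - x) / D : ℤ) : ℝ)) * D = (l : ℝ) - x := by
      have := congrArg (fun z : ℤ => (z : ℝ)) (hJD l hl)
      push_cast at this
      exact this
    have h2 : (((((l : ℤ) - x) / D : ℤ) : ℝ)) = ((l : ℝ) - x) / D := by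
      rw [eq_div_iff hDR, h1]
    simp only [hJ]
    push_cast
    rw [h2, hqR]
    field_simp
    ring
  have hinj : ∀ s : Finset ℤ, Set.InjOn J ((L ×ˢ s : Finset (ℕ × ℤ)) : Set (ℕ × ℤ)) := by
    intro s p hp p' hp' hpp
    rw [Finset.mem_coe, Finset.mem_product] at hp hp'
    obtain ⟨l, n⟩ := p
    obtain ⟨l', n'⟩ := p'
    simp only at hp hp'
    simp only [hJ] at hpp
    have h1 := hJD l hp.1
    have h2 := hJD l' hp'.1
    have h3 : ((l : ℤ) - x) - n * q = ((l' : ℤ) - x) - n' * q := by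
      have hqZ : (q : ℤ) = D * T := by exact_mod_cast hDT.symm
      rw [← h1, ← h2, hqZ]
      linear_combination (D : ℤ) * hpp
    have hl : l < q := mem_range.1 (mem_filter.1 hp.1).1
    have hl' : l' < q := mem_range.1 (mem_filter.1 hp'.1).1
    have h4 : (l : ℤ) - l' = (n - n') * q := by linarith
    have hnn : n = n' := by
      by_contra hne
      rcases lt_or_gt_of_ne hne with h5 | h5
      · have h6 : (n - n') ≤ -1 := by omega
        have h7 : (n - n') * (q : ℤ) ≤ -1 * q := mul_le_mul_of_nonneg_right h6 (by omega)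
        omega
      · have h6 : 1 ≤ (n - n') := by omega
        have h7 : 1 * (q : ℤ) ≤ (n - n') * q := mul_le_mul_of_nonneg_right h6 (by omega)
        omega
    rw [hnn, sub_self, zero_mul] at h4
    have hll : l = l' := by omega
    rw [hll, hnn]
  have hfin : ∀ s : Finset ℤ, ∑ l ∈ L, ∑ n ∈ s, gI N η τ (ξ + (l : ℝ) / q - n) ≤ B := by
    intro s
    have h1 : ∑ l ∈ L, ∑ n ∈ s, gI N η τ (ξ + (l : ℝ) / q - n) ≤
        ∑ p ∈ L ×ˢ s, h (N * (ξ + (x : ℝ) / q + ((J p : ℤ) : ℝ) / (T : ℝ))) := by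
      rw [Finset.sum_product]
      exact Finset.sum_le_sum fun l hl => Finset.sum_le_sum fun n _ => hterm l hl n
    have h2 : ∑ p ∈ L ×ˢ s, h (N * (ξ + (x : ℝ) / q + ((J p : ℤ) : ℝ) / (T : ℝ))) =
        ∑ j ∈ (L ×ˢ s).image J, h (N * (ξ + (x : ℝ) / q + (j : ℝ) / (T : ℝ))) := by
      rw [Finset.sum_image (fun p hp p' hp' hpp => hinj s (by exact_mod_cast hp) (by exact_mod_cast hp') hpp)]
    exact h1.trans (h2.le.trans (hB _))
  have hsum : ∀ l ∈ L, Summable fun n : ℤ => gI N η τ (ξ + (l : ℝ) / q - n) := by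
    intro l hl
    apply summable_of_sum_le (c := B) (fun n => gI_nonneg _ _ _ _)
    intro s
    refine le_trans ?_ (hfin s)
    exact Finset.single_le_sum (f := fun l : ℕ => ∑ n ∈ s, gI N η τ (ξ + (l : ℝ) / q - n))
      (fun l _ => Finset.sum_nonneg fun n _ => gI_nonneg _ _ _ _) hl
  rw [← Summable.tsum_finsetSum hsum]
  apply Summable.tsum_le_of_sum_le (summable_sum hsum)
  intro s
  rw [Finset.sum_comm]
  exact hfin s

theorem pf_FUN : T_FUN := by
  classical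
  intro k q N f η τ ξ h n a T x B hq _ _ hh ha hA hB
  have hG : ∀ l : ℕ, 0 ≤ ∑' m : ℤ, gI N η τ (ξ + (l : ℝ) / q - m) := fun l =>
    tsum_nonneg fun m => gI_nonneg _ _ _ _
  rw [VF]
  calc ∑ l ∈ range q, Al q f (l : ℤ) * ∑' m : ℤ, gI N η τ (ξ + (l : ℝ) / q - m)
      ≤ ∑ l ∈ range q, (∑ c, if ((q / T c : ℕ) : ℤ) ∣ (l : ℤ) - x c then a c else 0) *
          ∑' m : ℤ, gI N η τ (ξ + (l : ℝ) / q - m) :=
        Finset.sum_le_sum fun l _ => mul_le_mul_of_nonneg_right (hA l) (hG l)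
    _ = ∑ c, a c * ∑ l ∈ (range q).filter (fun l : ℕ => ((q / T c : ℕ) : ℤ) ∣ (l : ℤ) - x c),
          ∑' m : ℤ, gI N η τ (ξ + (l : ℝ) / q - m) := by
        simp_rw [Finset.sum_mul]
        rw [Finset.sum_comm]
        refine Finset.sum_congr rfl fun c _ => ?_
        rw [Finset.mul_sum, Finset.sum_filter]
        refine Finset.sum_congr rfl fun l _ => ?_
        split_ifs <;> simp
    _ ≤ ∑ c, a c * B c := Finset.sum_le_sum fun c _ =>
        mul_le_mul_of_nonneg_left (cls q N η τ ξ h (T c) (x c) (B c) hq hh (ha c).2 (hB c)) (ha c).1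

end Pool.Agent.H51.LVE
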